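import Mathlib
import Pool.Agent.H3.RowSum
import Pool.Agent.H3.RowShor

set_option autoImplicit false

namespace Pool.Agent.Results.MP_97c21f_co.Linear

open Pool.Agent.H3.RowSum

theorem result (a₀ a₁ a₂ b₀ b₁ b₂ : ℂ) (S : ℕ → ℕ → ℂ) (hA : S 0 0 = 1)
    (hB₁ : ∀ n : ℕ, 1 ≤ n → S 0 n = 0) (hB₂ : ∀ m : ℕ, 1 ≤ m → S m 0 = 0)
    (hC : ∀ m n : ℕ, 1 ≤ n → S (m + 1) n =
      (a₀ + a₁ * m + a₂ * n) * S m n + (b₀ + b₁ * m + b₂ * n) * S m (n - 1)) :
    (∀ m : ℕ, 1 ≤ m → ∑ n ∈ Finset.Icc 1 m, S m n = (m : ℂ) ^ m) ↔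
      (a₀ = 0 ∧ a₁ = 1 ∧ a₂ = 0 ∧ b₀ = 0 ∧ b₁ = 1 ∧ b₂ = 1) := by
  have hZ : ∀ m n : ℕ, m < n → S m n = 0 := by
    intro m
    induction m with
    | zero => intro n hn; exact hB₁ n hn
    | succ m ih =>
      intro n hn
      rw [hC m n (by omega), ih n (by omega), ih (n - 1) (by omega)]
      ring
  constructor
  · intro h
    have h1 := h 1 (by norm_num)
    have h2 := h 2 (by norm_num)
    have h3 := h 3 (by norm_num)
    have h4 := h 4 (by norm_num)
    have h5 := h 5 (by norm_num)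
    have h6 := h 6 (by norm_num)
    have h7 := h 7 (by norm_num)
    have h8 := h 8 (by norm_num)
    simp only [Finset.sum_Icc_succ_top (show (1 : ℕ) ≤ _ + 1 from Nat.le_add_left 1 _),
      Finset.Icc_self, Finset.sum_singleton, Nat.reduceAdd, Nat.cast_ofNat, Nat.cast_one]
      at h1 h2 h3 h4 h5 h6 h7 h8
    have s11 : S 1 1 = 1 := by linear_combination h1
    have hb : b₀ + b₂ = 1 := by
      have e := hC 0 1 (by norm_num)
      simp only [Nat.cast_zero, Nat.cast_one, Nat.reduceAdd, Nat.reduceSub] at e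
      rw [hA, hB₁ 1 (by norm_num), s11] at e
      linear_combination -e
    have hg : a₂ + b₂ = 4 - (a₀ + (a₁ + b₁) + 1) := by
      have e1 := hC 1 1 (by norm_num)
      have e2 := hC 1 2 (by norm_num)
      simp only [Nat.cast_ofNat, Nat.cast_one, Nat.reduceAdd, Nat.reduceSub] at e1 e2
      rw [hB₂ 1 (by norm_num), s11] at e1
      rw [hZ 1 2 (by norm_num), s11] at e2
      linear_combination h2 - e1 - e2 - hb
    obtain ⟨hp, hs, hd, hb1⟩ := core (a₀ + (a₁ + b₁) + 1) (a₁ + b₁) (a₂ + 2 * b₂) b₁ S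
      (fun m n hn => by
        rw [hC m n hn]
        linear_combination (2 * n * S m n - (n - 1) * S m (n - 1)) * hg + S m (n - 1) * hb)
      hZ hB₂ s11 (by linear_combination h2) (by linear_combination h3)
      (by linear_combination h4) (by linear_combination h5) (by linear_combination h6)
      (by linear_combination h7) (by linear_combination h8)
    have hb2 : b₂ = 1 := by linear_combination hd - hg + hp
    refine ⟨by linear_combination hp - hs, by linear_combination hs - hb1,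
      by linear_combination hd - 2 * hb2, by linear_combination hb - hb2, hb1, hb2⟩
  · rintro ⟨rfl, rfl, rfl, rfl, rfl, rfl⟩ m hm
    refine shor S hA hB₁ hB₂ hZ (fun m n hn => ?_) m hm
    rw [hC m n hn]
    ring

end Pool.Agent.Results.MP_97c21f_co.Linear
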